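import Pool.Agent.N889.AO.Stm

/-!
# Project AO: having distinct real eigenvalues is an open condition
-/

set_option autoImplicit false

open Polynomial Matrix Filter Topology

namespace Pool.Agent.N891.AO

open Pool.Agent.N889.AO

theorem stmOpen : StmOpen := by
  intro ι _ _ D hD
  obtain ⟨r, hr, hDr⟩ := hD
  -- the distance of the roots
  obtain ⟨δ, hδ0, hδ⟩ : ∃ δ : ℝ, 0 < δ ∧ ∀ i j, i ≠ j → 2 * δ < |r i - r j| := by
    have h1 : ∀ᶠ δ : ℝ in 𝓝[>] 0, ∀ i j, i ≠ j → 2 * δ < |r i - r j| := by
      rw [eventually_all]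
      intro i
      rw [eventually_all]
      intro j
      by_cases hij : i = j
      · exact Eventually.of_forall fun δ h => absurd hij h
      · have h2 : 0 < |r i - r j| := abs_pos.2 (sub_ne_zero.2 (hr.ne hij))
        have h3 : Set.Ioo (0 : ℝ) (|r i - r j| / 2) ∈ 𝓝[>] (0 : ℝ) := Ioo_mem_nhdsGT (by linarith)
        filter_upwards [h3] with δ hδ _
        linarith [hδ.2]
    obtain ⟨δ, h2, h3⟩ := (h1.and self_mem_nhdsWithin).exists
    exact ⟨δ, h3, h2⟩
  -- the sign change for `D`
  have hsign : ∀ i, D.charpoly.eval (r i - δ) * D.charpoly.eval (r i + δ) < 0 := by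
    intro i
    rw [hDr, eval_prod, eval_prod, ← Finset.prod_mul_distrib,
      ← Finset.mul_prod_erase Finset.univ _ (Finset.mem_univ i)]
    refine mul_neg_of_neg_of_pos ?_ (Finset.prod_pos fun j hj => ?_)
    · simp only [eval_sub, eval_X, eval_C]
      nlinarith
    · have hij : i ≠ j := (Finset.ne_of_mem_erase hj).symm
      have h1 := hδ i j hij
      simp only [eval_sub, eval_X, eval_C]
      have h2 : (r i - δ - r j) * (r i + δ - r j) = |r i - r j| ^ 2 - δ ^ 2 := by
        rw [sq_abs]; ring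
      rw [h2]
      nlinarith
  -- openness
  have hcont : ∀ x : ℝ, Continuous fun M : ι → ι → ℝ => (Matrix.of M).charpoly.eval x := by
    intro x
    have : (fun M : ι → ι → ℝ => (Matrix.of M).charpoly.eval x) =
        fun M : ι → ι → ℝ => (Matrix.scalar ι x - Matrix.of M).det := by
      funext M
      rw [Matrix.eval_charpoly]
    rw [this]
    refine Continuous.matrix_det ?_
    refine continuous_const.sub ?_
    exact continuous_id
  have hev : ∀ᶠ M : ι → ι → ℝ in 𝓝 D, ∀ i,
      (Matrix.of M).charpoly.eval (r i - δ) * (Matrix.of M).charpoly.eval (r i + δ) < 0 := by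
    rw [eventually_all]
    intro i
    exact ((hcont _).mul (hcont _)).continuousAt.eventually (gt_mem_nhds (hsign i))
  obtain ⟨ε, hε, hball⟩ := Metric.eventually_nhds_iff.1 hev
  refine ⟨ε, hε, fun D' hD' => ?_⟩
  have hs' : ∀ i, D'.charpoly.eval (r i - δ) * D'.charpoly.eval (r i + δ) < 0 := by
    refine hball (y := fun i j => D' i j) ?_
    refine (dist_pi_lt_iff (f := fun i j => D' i j) (g := fun i j => D i j) hε).2
      fun i => (dist_pi_lt_iff hε).2 fun j => hD' i j
  have hroot : ∀ i, ∃ x, x ∈ Set.Icc (r i - δ) (r i + δ) ∧ D'.charpoly.eval x = 0 := by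
    intro i
    have hc : ContinuousOn (fun x => D'.charpoly.eval x) (Set.Icc (r i - δ) (r i + δ)) :=
      D'.charpoly.continuous.continuousOn
    have hle : r i - δ ≤ r i + δ := by linarith
    rcases mul_neg_iff.1 (hs' i) with h | h
    · obtain ⟨x, hx, hx0⟩ := intermediate_value_Icc' hle hc ⟨h.2.le, h.1.le⟩
      exact ⟨x, hx, hx0⟩
    · obtain ⟨x, hx, hx0⟩ := intermediate_value_Icc hle hc ⟨h.1.le, h.2.le⟩
      exact ⟨x, hx, hx0⟩
  choose r' hr' hr0 using hroot
  have hinj : Function.Injective r' := by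
    intro i j hij
    by_contra hne
    have h1 := hδ i j hne
    have h2 := hr' i
    have h3 := hr' j
    rw [hij] at h2
    have h4 : |r i - r j| ≤ 2 * δ := by
      rw [abs_le]
      constructor <;> linarith [h2.1, h2.2, h3.1, h3.2]
    linarith
  refine ⟨r', hinj, ?_⟩
  refine Polynomial.eq_of_monic_of_dvd_of_natDegree_le
    (monic_prod_of_monic _ _ fun i _ => monic_X_sub_C _) D'.charpoly_monic ?_ ?_
  · refine Finset.prod_dvd_of_coprime (fun i _ j _ hij => pairwise_coprime_X_sub_C hinj hij)
      fun i _ => ?_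
    rw [dvd_iff_isRoot]
    exact hr0 i
  · rw [Matrix.charpoly_natDegree_eq_dim, natDegree_finsetProd_X_sub_C_eq_card]
    exact le_rfl

end Pool.Agent.N891.AO
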